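import Pool.Agent.DL.P.V.Stm

/-!
# DELTA (MP_d362fb_lc), row V-C3: time steps are lifted
-/

set_option autoImplicit false

namespace Pool.Agent.H39.DL

open H5.DL Pool.Agent.DL.P Pool.Agent.DL.P.V

/-- the branching label at a cone is a label of the segment which defines the cone -/
theorem br_label {s x y : Node} {d : D} (hx : s ≤ x) (hy : ¬ s ≤ y) (h : Br x y d) :
    ∃ ν, s.f ν = some d := by
  obtain ⟨ν, h1, h2, -⟩ := h
  rw [Nd.le_def] at hy
  push Not at hy
  obtain ⟨μ, e, hμ, hμy⟩ := hy
  have hxμ : x.f μ = some e := hx μ e hμ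
  have hνμ : ν ≤ μ := by
    by_contra hc
    push Not at hc
    exact hμy ((h1 μ hc).symm.trans hxμ)
  have hs : s.f ν ≠ none := s.dc ν μ hνμ (by rw [hμ]; exact Option.some_ne_none _)
  cases hsν : s.f ν with
  | none => exact absurd hsν hs
  | some d' =>
    have := hx ν d' hsν
    rw [h2] at this
    exact ⟨ν, by rw [hsν, this]⟩

section

variable {r t : Sys Prom} {k : D} {i m : ℕ} {s : ℕ → Node} {W : ℕ → Set Node}

/-- facts of `r` about kept promises are in `t` -/
theorem mem_of_keep (ht : Inv r k i s W m t) {j : ℕ} (hj : j ∈ r.J) {f : Fact Prom}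
    (hf : f ∈ r.X j) (hk : Keep (lowK r k s j) f) : f ∈ t.X j :=
  ht.X j hj (Or.inl ⟨hf, hk⟩)

/-- facts of the lift which do not mention a promise are in `t` -/
theorem mem_of_lift (ht : Inv r k i s W m t) {j : ℕ} {f : Fact Prom}
    (hf : f ∈ (lift r W m t).X j) (hk : Keep (lowK r k s j) f) : f ∈ t.X j := by
  by_cases hj : j ∈ r.J
  · have h1 : f ∈ r.X j ∪ {f | f ∈ t.X j ∧ ¬ Bad W m j f} := by
      have := hf
      simp only [lift, if_pos hj] at this
      exact this
    rcases h1 with h1 | h1
    · exact mem_of_keep ht hj h1 hk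
    · exact h1.1
  · simp only [lift, if_neg hj] at hf
    exact hf

theorem lift_X_old {j : ℕ} (hj : j ∈ r.J) :
    (lift r W m t).X j = r.X j ∪ {f | f ∈ t.X j ∧ ¬ Bad W m j f} := by
  simp only [lift, if_pos hj]

theorem lift_X_new {j : ℕ} (hj : j ∉ r.J) : (lift r W m t).X j = t.X j := by
  simp only [lift, if_neg hj]

theorem lift_K_old {j : ℕ} (hj : j ∈ r.J) : (lift r W m t).K j = r.K j := by
  simp only [lift, if_pos hj]

theorem lift_K_new {j : ℕ} (hj : j ∉ r.J) : (lift r W m t).K j = t.K j := by
  simp only [lift, if_neg hj]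

theorem mem_lift_nd (ht : Inv r k i s W m t) {j : ℕ} {x : Node} :
    Fact.nd x ∈ (lift r W m t).X j ↔ Fact.nd x ∈ t.X j := by
  refine ⟨fun h => mem_of_lift ht h trivial, fun h => ?_⟩
  by_cases hj : j ∈ r.J
  · rw [lift_X_old hj]
    exact Or.inr ⟨h, fun hb => hb⟩
  · rw [lift_X_new hj]
    exact h

end

/-- V-C3 -/
theorem sliftTime : SLiftTime := by
  intro r s0 s Q W k i m m' C t t' hr hP hi ht ht' h
  have hCnd : ∀ j x, x ∈ C j → .nd x ∈ t.X j := by
    intro j x hx
    rcases h.cone j with h1 | ⟨-, s', -, h1⟩
    · rw [h1] at hx; exact absurd hx (Set.notMem_empty x)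
    · exact ((h1 x).1 hx).1
  have hnb : ∀ j ∈ r.J, ∀ x ∈ C j, m' = m → x ∉ W j := by
    intro j hj x hx hm hw
    have h1 := ht.nd j hj x (hCnd j x hx) hw
    have h2 : Fact.bl x m ∈ t.X j := ht.X j hj (Or.inr ⟨x, h1, rfl⟩)
    exact h.free j x hx (hm ▸ h2)
  exact
    { n := h.n
      rt := rfl
      J := h.J
      E := h.E
      K := by
        funext j
        by_cases hj : j ∈ r.J
        · rw [lift_K_old hj, lift_K_old hj]
        · rw [lift_K_new hj, lift_K_new hj, h.K]
      Z := h.Z
      X := by
        intro j f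
        by_cases hj : j ∈ r.J
        · rw [lift_X_old hj, lift_X_old hj]
          constructor
          · rintro (h1 | ⟨h1, h2⟩)
            · exact Or.inl (Or.inl h1)
            · rcases (h.X j f).1 h1 with h3 | h3
              · exact Or.inl (Or.inr ⟨h3, h2⟩)
              · exact Or.inr h3
          · rintro ((h1 | ⟨h1, h2⟩) | ⟨x, hx, h1⟩)
            · exact Or.inl h1
            · exact Or.inr ⟨(h.X j f).2 (Or.inl h1), h2⟩
            · refine Or.inr ⟨(h.X j f).2 (Or.inr ⟨x, hx, h1⟩), ?_⟩
              rcases h1 with rfl | rfl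
              · exact fun hb => hb
              · rintro ⟨h3, h4⟩
                exact hnb j hj x hx h3 h4
        · rw [lift_X_new hj, lift_X_new hj]
          exact h.X j f
      cone := by
        intro j
        rcases h.cone j with h1 | ⟨hjt, s', hs', h1⟩
        · exact Or.inl h1
        · refine Or.inr ⟨hjt, s', ?_, fun x => ?_⟩
          · by_cases hj : j ∈ r.J
            · rw [lift_K_old hj]
              intro ν d hd
              have h2 := hs' ν d hd
              rw [ht.K j hj] at h2
              exact h2.1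
            · rw [lift_K_new hj]
              exact hs'
          · rw [mem_lift_nd ht]
            exact h1 x
      sh := h.sh
      mn := h.mn
      free := fun j x hx hb => h.free j x hx (mem_of_lift ht hb trivial)
      tok := by
        intro j x hx y hy hyC hds v hv
        refine h.tok j x hx y ((mem_lift_nd ht).1 hy) hyC ?_ v (mem_of_lift ht hv trivial)
        rcases hds with h1 | h1
        · exact Or.inl (mem_of_lift ht h1 trivial)
        · exact Or.inr (mem_of_lift ht h1 trivial)
      rel := by
        intro j φ hφ x hx y hy hyC d hd hle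
        have hy' := (mem_lift_nd ht).1 hy
        by_cases hj : j ∈ r.J
        · have hφt : .pr φ ∈ t.X j := by
            refine mem_of_lift ht hφ ?_
            rcases h.cone j with h1 | ⟨hjt, s', hs', h1⟩
            · rw [h1] at hx; exact absurd hx (Set.notMem_empty x)
            · have hsx := ((h1 x).1 hx).2
              have hsy : ¬ s' ≤ y := fun hc => hyC ((h1 y).2 ⟨hy', hc⟩)
              obtain ⟨ν, hν⟩ := br_label hsx hsy hd
              have h2 := ht.val.low j hjt hle (hs' ν d hν)
              rw [ht.K j hj] at h2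
              exact h2
          have h3 := h.rel j φ hφt x hx y hy' hyC d hd hle
          rw [lift_X_old hj]
          exact Or.inr ⟨h3, fun hb => hb⟩
        · rw [lift_X_new hj] at hφ ⊢
          exact h.rel j φ hφ x hx y hy' hyC d hd hle }

end Pool.Agent.H39.DL
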